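import Pool.Agent.T9h11.NF.Spec2

/-!
# `IdCountK`: counting ideals (helper31)
-/

set_option autoImplicit false

namespace Pool.Agent.T9h31.NF

open Finset NumberField Filter Pool.Agent.T9h11.NF

variable (K : Type) [Field K] [NumberField K]

lemma card_le (s : ℝ) (S : Finset (Ideal (𝓞 K))) (h : ∀ I ∈ S, nm I ≤ s) :
    S.card ≤ Nat.card {I : Ideal (𝓞 K) // Ideal.absNorm I ≤ s} := by
  have hfin : Finite {I : Ideal (𝓞 K) // Ideal.absNorm I ≤ s} := by
    have h1 := Ideal.finite_setOfPred_absNorm_le (S := 𝓞 K) ⌊s⌋₊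
    refine Set.Finite.subset h1 fun I hI => ?_
    exact Nat.le_floor hI
  have h2 : Function.Injective
      (fun I : S => (⟨I.1, h I.1 I.2⟩ : {I : Ideal (𝓞 K) // Ideal.absNorm I ≤ s})) := by
    intro I J hIJ
    have h5 : (I : Ideal (𝓞 K)) = J :=
      congrArg (fun z : {I : Ideal (𝓞 K) // Ideal.absNorm I ≤ s} => (z : Ideal (𝓞 K))) hIJ
    exact Subtype.ext h5
  have h3 := Nat.card_le_card_of_injective _ h2
  rwa [Nat.card_eq_fintype_card, Fintype.card_coe] at h3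

lemma count_bound : ∃ C : ℝ, 1 ≤ C ∧ ∀ (Q : ℝ) (S : Finset (Ideal (𝓞 K))), 1 ≤ Q →
    (∀ I ∈ S, nm I ≤ Q) → (S.card : ℝ) ≤ C * Q := by
  obtain ⟨L, hL⟩ : ∃ L : ℝ, Tendsto (fun s : ℝ =>
      (Nat.card {I : Ideal (𝓞 K) // Ideal.absNorm I ≤ s} : ℝ) / s) atTop (nhds L) :=
    ⟨_, NumberField.Ideal.tendsto_norm_le_div_atTop K⟩
  have h1 : ∀ᶠ s : ℝ in atTop,
      (Nat.card {I : Ideal (𝓞 K) // Ideal.absNorm I ≤ s} : ℝ) / s < L + 1 :=
    hL.eventually (gt_mem_nhds (by linarith))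
  obtain ⟨s₀, hs₀⟩ := (h1.and (eventually_ge_atTop 1)).exists_forall_of_atTop
  have hs1 : 1 ≤ s₀ := (hs₀ s₀ le_rfl).2
  set c : ℝ := (Nat.card {I : Ideal (𝓞 K) // Ideal.absNorm I ≤ s₀} : ℝ) with hc
  have hc0 : 0 ≤ c := Nat.cast_nonneg _
  have hL0 : 0 ≤ |L| := abs_nonneg L
  refine ⟨|L| + 1 + c, by linarith, fun Q S hQ hS => ?_⟩
  rcases le_total s₀ Q with h | h
  · have h2 := (hs₀ Q h).1
    have h3 : (S.card : ℝ) ≤ (Nat.card {I : Ideal (𝓞 K) // Ideal.absNorm I ≤ Q} : ℝ) := by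
      exact_mod_cast card_le K Q S hS
    rw [div_lt_iff₀ (by linarith)] at h2
    have h4 : (L + 1) * Q ≤ (|L| + 1 + c) * Q :=
      mul_le_mul_of_nonneg_right (by linarith [le_abs_self L]) (by linarith)
    linarith
  · have h3 : (S.card : ℝ) ≤ c := by
      rw [hc]
      exact_mod_cast card_le K s₀ S fun I hI => (hS I hI).trans h
    nlinarith

theorem idCountK : IdCountK K := by
  classical
  obtain ⟨C, hC1, hC⟩ := count_bound K
  refine ⟨8 * C, by linarith, fun Q S hQ hS => ?_, fun w S hw hS => ?_⟩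
  · have := hC Q S hQ fun I hI => (hS I hI).2
    nlinarith
  have hw0 : 0 < w := by linarith
  set f : Ideal (𝓞 K) → ℕ := fun I => Nat.log 2 ⌊nm I / w⌋₊ with hf
  have hlow : ∀ I ∈ S, (2 : ℝ) ^ f I * w ≤ nm I ∧ nm I ≤ 2 * ((2 : ℝ) ^ f I * w) := by
    intro I hI
    have h1 : 1 ≤ nm I / w := (one_le_div hw0).2 (hS I hI).2
    have h2 : ⌊nm I / w⌋₊ ≠ 0 := by
      have := Nat.le_floor (α := ℝ) (n := 1) (a := nm I / w) (by simpa using h1)
      omega
    have h3 : (2 : ℝ) ^ f I ≤ nm I / w := by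
      have h4 : 2 ^ f I ≤ ⌊nm I / w⌋₊ := Nat.pow_log_le_self 2 h2
      have h5 : ((2 ^ f I : ℕ) : ℝ) ≤ (⌊nm I / w⌋₊ : ℝ) := by exact_mod_cast h4
      have h6 := Nat.floor_le (a := nm I / w) (by linarith)
      push_cast at h5
      linarith
    have h7 : nm I / w < 2 * (2 : ℝ) ^ f I := by
      have h8 : ⌊nm I / w⌋₊ < 2 ^ (f I + 1) := Nat.lt_pow_succ_log_self (by norm_num) _
      have h9 : (⌊nm I / w⌋₊ : ℝ) + 1 ≤ ((2 ^ (f I + 1) : ℕ) : ℝ) := by exact_mod_cast h8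
      have h10 := Nat.lt_floor_add_one (nm I / w)
      push_cast at h9
      rw [pow_succ] at h9
      linarith
    constructor
    · rw [le_div_iff₀ hw0] at h3
      exact h3
    · rw [div_lt_iff₀ hw0] at h7
      linarith
  obtain ⟨J, hJ⟩ : ∃ J : ℕ, ∀ I ∈ S, f I ∈ range J := by
    refine ⟨S.sup f + 1, fun I hI => ?_⟩
    rw [mem_range]
    have := Finset.le_sup (f := f) hI
    omega
  rw [← Finset.sum_fiberwise_of_maps_to hJ]
  have hblock : ∀ j ∈ range J, ∑ I ∈ S with f I = j, 1 / nm I ^ (3 / 2 : ℝ) ≤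
      2 * C / w ^ (1 / 2 : ℝ) * (3 / 4 : ℝ) ^ j := by
    intro j _
    set y : ℝ := 2 ^ j * w with hy
    have hy0 : 0 < y := by positivity
    have hy1 : 1 ≤ 2 * y := by
      have : (1 : ℝ) ≤ 2 ^ j := one_le_pow₀ (by norm_num)
      nlinarith
    have h1 : ((S.filter (fun I => f I = j)).card : ℝ) ≤ C * (2 * y) := by
      refine hC (2 * y) _ hy1 fun I hI => ?_
      rw [mem_filter] at hI
      have := (hlow I hI.1).2
      rwa [hI.2] at this
    have h2 : ∀ I ∈ S.filter (fun I => f I = j), 1 / nm I ^ (3 / 2 : ℝ) ≤ 1 / y ^ (3 / 2 : ℝ) := by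
      intro I hI
      rw [mem_filter] at hI
      have h3 := (hlow I hI.1).1
      rw [hI.2] at h3
      exact one_div_le_one_div_of_le (Real.rpow_pos_of_pos hy0 _)
        (Real.rpow_le_rpow hy0.le h3 (by norm_num))
    have h4 := Finset.sum_le_card_nsmul _ _ _ h2
    rw [nsmul_eq_mul] at h4
    have h5 : y ^ (3 / 2 : ℝ) = y * y ^ (1 / 2 : ℝ) := by
      rw [show (3 / 2 : ℝ) = 1 + 1 / 2 by norm_num, Real.rpow_add hy0, Real.rpow_one]
    have h6 : (4 / 3 : ℝ) ^ j * w ^ (1 / 2 : ℝ) ≤ y ^ (1 / 2 : ℝ) := by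
      rw [hy, Real.mul_rpow (by positivity) hw0.le]
      refine mul_le_mul_of_nonneg_right ?_ (Real.rpow_nonneg hw0.le _)
      rw [← Real.rpow_natCast 2 j, ← Real.rpow_mul (by norm_num), mul_comm, Real.rpow_mul (by norm_num),
        Real.rpow_natCast]
      refine pow_le_pow_left₀ (by norm_num) ?_ j
      rw [← Real.sqrt_eq_rpow]
      exact Real.le_sqrt_of_sq_le (by norm_num)
    have hw2 : 0 < w ^ (1 / 2 : ℝ) := Real.rpow_pos_of_pos hw0 _
    have hy2 : 0 < y ^ (1 / 2 : ℝ) := Real.rpow_pos_of_pos hy0 _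
    have h43 : (0 : ℝ) < (4 / 3) ^ j := by positivity
    calc ∑ I ∈ S with f I = j, 1 / nm I ^ (3 / 2 : ℝ)
        ≤ ((S.filter (fun I => f I = j)).card : ℝ) * (1 / y ^ (3 / 2 : ℝ)) := h4
      _ ≤ C * (2 * y) * (1 / y ^ (3 / 2 : ℝ)) :=
          mul_le_mul_of_nonneg_right h1 (by positivity)
      _ = 2 * C / y ^ (1 / 2 : ℝ) := by
          rw [h5]
          field_simp
      _ ≤ 2 * C / ((4 / 3 : ℝ) ^ j * w ^ (1 / 2 : ℝ)) :=
          div_le_div_of_nonneg_left (by linarith) (by positivity) h6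
      _ = 2 * C / w ^ (1 / 2 : ℝ) * (3 / 4 : ℝ) ^ j := by
          rw [show (3 / 4 : ℝ) = (4 / 3)⁻¹ by norm_num, inv_pow]
          field_simp
  refine (Finset.sum_le_sum hblock).trans ?_
  rw [← Finset.mul_sum]
  have h7 : ∑ j ∈ range J, (3 / 4 : ℝ) ^ j ≤ 4 := by
    have h8 := (summable_geometric_of_lt_one (r := (3 / 4 : ℝ)) (by norm_num)
      (by norm_num)).sum_le_tsum (range J) (fun j _ => by positivity)
    rw [tsum_geometric_of_lt_one (by norm_num) (by norm_num)] at h8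
    norm_num at h8 ⊢
    linarith
  have hw2 : 0 < w ^ (1 / 2 : ℝ) := Real.rpow_pos_of_pos hw0 _
  calc 2 * C / w ^ (1 / 2 : ℝ) * ∑ j ∈ range J, (3 / 4 : ℝ) ^ j
      ≤ 2 * C / w ^ (1 / 2 : ℝ) * 4 := mul_le_mul_of_nonneg_left h7 (by positivity)
    _ = 8 * C / w ^ (1 / 2 : ℝ) := by ring

end Pool.Agent.T9h31.NF
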