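import Pool.Agent.T9h11.NF.Spec2

/-!
# `PhiK`: units of the quotients (helper31)
-/

set_option autoImplicit false

namespace Pool.Agent.T9h31.NF

open Finset NumberField Pool.Agent.T9h11.NF UniqueFactorizationMonoid

variable (K : Type) [Field K] [NumberField K]

/-- coprime if no maximal ideal contains both. -/
lemma cop_of {x : 𝓞 K} {M : Ideal (𝓞 K)}
    (h : ∀ P : Ideal (𝓞 K), P.IsMaximal → x ∈ P → ¬ M ≤ P) : cop x M := by
  unfold cop
  rw [Ideal.isCoprime_iff_sup_eq]
  by_contra hne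
  obtain ⟨P, hP, hle⟩ := Ideal.exists_le_maximal _ hne
  exact h P hP (hle (Ideal.mem_sup_left (Ideal.mem_span_singleton_self x)))
    (le_sup_right.trans hle)

lemma not_of_cop {x : 𝓞 K} {M : Ideal (𝓞 K)} (h : cop x M) {P : Ideal (𝓞 K)} (hP : P ≠ ⊤)
    (hx : x ∈ P) : ¬ M ≤ P := by
  intro hM
  unfold cop at h
  rw [Ideal.isCoprime_iff_sup_eq] at h
  refine hP (top_le_iff.1 ?_)
  rw [← h]
  exact sup_le ((Ideal.span_singleton_le_iff_mem P).2 hx) hM

theorem phi_lift (I J : Ideal (𝓞 K)) (hI : I ≠ ⊥) (hJ : J ≠ ⊥) (x : 𝓞 K) (hx : cop x I) :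
    ∃ y : 𝓞 K, cop y (I * J) ∧ y - x ∈ I := by
  classical
  set T : Finset (Ideal (𝓞 K)) :=
    (normalizedFactors J).toFinset.filter (fun P => ¬ I ≤ P) with hT
  have hTmax : ∀ P ∈ T, P.IsMaximal := by
    intro P hP
    rw [hT, mem_filter, Multiset.mem_toFinset] at hP
    have h1 := prime_of_normalized_factor P hP.1
    exact (Ideal.isPrime_of_prime h1).isMaximal h1.ne_zero
  have hcop : IsCoprime I (∏ P ∈ T, P) := by
    refine IsCoprime.prod_right fun P hP => ?_
    rw [Ideal.isCoprime_iff_sup_eq]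
    by_contra hne
    have h1 := hTmax P hP
    have h2 : P = I ⊔ P := h1.eq_of_le hne le_sup_right
    rw [hT, mem_filter] at hP
    exact hP.2 (by rw [h2]; exact le_sup_left)
  obtain ⟨a, ha, b, hb, hab⟩ := Submodule.mem_sup.1
    ((Ideal.eq_top_iff_one _).1 (Ideal.isCoprime_iff_sup_eq.1 hcop))
  refine ⟨x * b + a, cop_of K fun P hP hy hle => ?_, ?_⟩
  · rcases (hP.isPrime.mul_le).1 hle with h1 | h1
    · -- `I ≤ P`
      have h2 : x ∈ P := by
        have h3 : a ∈ P := h1 ha
        have h4 : x * b ∈ P := by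
          have := P.sub_mem hy h3
          simpa using this
        have h5 : x = x * b + x * a := by
          rw [← mul_add, add_comm b a, hab, mul_one]
        rw [h5]
        exact P.add_mem h4 (P.mul_mem_left _ h3)
      exact not_of_cop K hx hP.ne_top h2 h1
    · by_cases hIP : I ≤ P
      · have h2 : x ∈ P := by
          have h3 : a ∈ P := hIP ha
          have h4 : x * b ∈ P := by
            have := P.sub_mem hy h3
            simpa using this
          have h5 : x = x * b + x * a := by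
            rw [← mul_add, add_comm b a, hab, mul_one]
          rw [h5]
          exact P.add_mem h4 (P.mul_mem_left _ h3)
        exact not_of_cop K hx hP.ne_top h2 hIP
      · have hP0 : P ≠ ⊥ := by
          rintro rfl
          exact hJ (le_bot_iff.1 h1)
        have hPT : P ∈ T := by
          rw [hT, mem_filter, Multiset.mem_toFinset]
          refine ⟨?_, hIP⟩
          rw [mem_normalizedFactors_iff' hJ]
          exact ⟨(Ideal.prime_of_isPrime hP0 hP.isPrime).irreducible, normalize_eq P,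
            Ideal.dvd_iff_le.2 h1⟩
        have h6 : (∏ P ∈ T, P) ≤ P := Ideal.le_of_dvd (Finset.dvd_prod_of_mem _ hPT)
        have h7 : b ∈ P := h6 hb
        have h8 : a ∈ P := by
          have := P.sub_mem hy (P.mul_mem_left x h7)
          simpa using this
        exact hP.ne_top ((Ideal.eq_top_iff_one P).2 (hab ▸ P.add_mem h8 h7))
  · have h1 : x * b + a - x = a - x * a := by
      have : x = x * (a + b) := by rw [hab, mul_one]
      calc x * b + a - x = x * b + a - x * (a + b) := by rw [← this]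
        _ = a - x * a := by ring
    rw [h1]
    exact I.sub_mem ha (I.mul_mem_left _ ha)

lemma finite_quot (I : Ideal (𝓞 K)) (hI : I ≠ ⊥) : Finite (𝓞 K ⧸ I) :=
  Ideal.finiteQuotientOfFreeOfNeBot I hI

theorem phi_pos (I : Ideal (𝓞 K)) (hI : I ≠ ⊥) : 0 < phi I := by
  haveI := finite_quot K I hI
  unfold phi
  exact_mod_cast Nat.card_pos

/-- number of elements of `{z // P (φ z)}` for a surjective homomorphism. -/
lemma card_preim {A B : Type*} [AddCommGroup A] [AddCommGroup B] [Finite A] (φ : A →+ B)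
    (hφ : Function.Surjective φ) (P : B → Prop) :
    Nat.card {z : A // P (φ z)} = Nat.card {u : B // P u} * Nat.card φ.ker := by
  classical
  rw [← Nat.card_prod]
  choose s hs using hφ
  refine Nat.card_congr
    { toFun := fun z => (⟨φ z.1, z.2⟩, ⟨z.1 - s (φ z.1), ?_⟩)
      invFun := fun w => ⟨w.2.1 + s w.1.1, ?_⟩
      left_inv := ?_
      right_inv := ?_ }
  · rw [AddMonoidHom.mem_ker, map_sub, hs, sub_self]
  · have : φ (w.2.1 + s w.1.1) = w.1.1 := by
      rw [map_add, (AddMonoidHom.mem_ker).1 w.2.2, hs, zero_add]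
    rw [this]
    exact w.1.2
  · intro z
    exact Subtype.ext (by simp)
  · rintro ⟨⟨u, hu⟩, ⟨k, hk⟩⟩
    have h1 : φ (k + s u) = u := by
      rw [map_add, (AddMonoidHom.mem_ker).1 hk, hs, zero_add]
    refine Prod.ext (Subtype.ext h1) (Subtype.ext ?_)
    show k + s u - s (φ (k + s u)) = k
    rw [h1]
    abel

theorem phi_mul (I J : Ideal (𝓞 K)) (hI : I ≠ ⊥) (hJ : J ≠ ⊥) (h : PD J I) :
    phi (I * J) = phi I * nm J := by
  classical
  have hIJ : I * J ≠ ⊥ := mul_ne_zero hI hJ
  haveI := finite_quot K I hI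
  haveI := finite_quot K J hJ
  haveI := finite_quot K (I * J) hIJ
  set φ : 𝓞 K ⧸ (I * J) →+* 𝓞 K ⧸ I := Ideal.Quotient.factor Ideal.mul_le_left with hφ
  have hsurj : Function.Surjective φ := Ideal.Quotient.factor_surjective _
  have hcard : Nat.card (𝓞 K ⧸ (I * J)) = Nat.card (𝓞 K ⧸ I) * Nat.card φ.toAddMonoidHom.ker := by
    have h1 := card_preim φ.toAddMonoidHom hsurj (fun _ => True)
    rw [Nat.card_congr (Equiv.subtypeUnivEquiv (p := fun z : 𝓞 K ⧸ (I * J) => True)
      (fun _ => trivial))] at h1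
    rw [Nat.card_congr (Equiv.subtypeUnivEquiv (p := fun z : 𝓞 K ⧸ I => True)
      (fun _ => trivial))] at h1
    exact h1
  have hker : Nat.card φ.toAddMonoidHom.ker = Ideal.absNorm J := by
    have h1 : Nat.card (𝓞 K ⧸ (I * J)) = Ideal.absNorm (I * J) := by
      rw [Ideal.absNorm_apply, Submodule.cardQuot_apply]
    have h2 : Nat.card (𝓞 K ⧸ I) = Ideal.absNorm I := by
      rw [Ideal.absNorm_apply, Submodule.cardQuot_apply]
    rw [h1, h2, map_mul] at hcard
    exact (Nat.eq_of_mul_eq_mul_left (Nat.pos_of_ne_zero fun h0 =>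
      hI (Ideal.absNorm_eq_zero_iff.1 h0)) hcard).symm
  have hunit : ∀ z : 𝓞 K ⧸ (I * J), IsUnit z ↔ IsUnit (φ z) := by
    intro z
    refine ⟨fun hz => hz.map φ, fun hz => ?_⟩
    by_contra hn
    obtain ⟨Q, hQ, hzQ⟩ := exists_max_ideal_of_mem_nonunits (mem_nonunits_iff.2 hn)
    obtain ⟨x, rfl⟩ := Ideal.Quotient.mk_surjective z
    set P : Ideal (𝓞 K) := Q.comap (Ideal.Quotient.mk (I * J)) with hP
    haveI hPp : P.IsPrime := Ideal.IsPrime.comap _
    have hle : I * J ≤ P := by
      intro y hy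
      rw [hP, Ideal.mem_comap, Ideal.Quotient.eq_zero_iff_mem.2 hy]
      exact Q.zero_mem
    have hIP : I ≤ P := by
      rcases (hPp.mul_le).1 hle with h1 | h1
      · exact h1
      · have hP0 : P ≠ ⊥ := by
          intro h0
          rw [h0] at h1
          exact hJ (le_bot_iff.1 h1)
        exact Ideal.dvd_iff_le.1 (h P hPp hP0 (Ideal.dvd_iff_le.2 h1))
    have hxP : x ∈ P := hzQ
    have h2 : Ideal.Quotient.mk I x ∈ P.map (Ideal.Quotient.mk I) := Ideal.mem_map_of_mem _ hxP
    have h3 : P.map (Ideal.Quotient.mk I) = ⊤ := Ideal.eq_top_of_isUnit_mem _ h2 hz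
    have h4 : P ⊔ I = ⊤ := by
      have h5 := congrArg (Ideal.comap (Ideal.Quotient.mk I)) h3
      rw [Ideal.comap_map_of_surjective _ Ideal.Quotient.mk_surjective, Ideal.comap_top,
        ← RingHom.ker_eq_comap_bot, Ideal.mk_ker] at h5
      exact h5
    exact hPp.ne_top (by rw [← h4]; exact (sup_eq_left.2 hIP).symm)
  have h1 : Nat.card (𝓞 K ⧸ (I * J))ˣ = Nat.card {z : 𝓞 K ⧸ (I * J) // IsUnit (φ z)} := by
    rw [Nat.card_congr (Submonoid.unitsTypeEquivIsUnitSubmonoid (M := 𝓞 K ⧸ (I * J))).toEquiv]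
    exact Nat.card_congr (Equiv.subtypeEquivRight hunit)
  have h2 : Nat.card (𝓞 K ⧸ I)ˣ = Nat.card {z : 𝓞 K ⧸ I // IsUnit z} :=
    Nat.card_congr (Submonoid.unitsTypeEquivIsUnitSubmonoid (M := 𝓞 K ⧸ I)).toEquiv
  have h3 := card_preim φ.toAddMonoidHom hsurj (fun z => IsUnit z)
  unfold phi nm
  rw [h1, h2, ← hker]
  exact_mod_cast h3

theorem phiK : PhiK K :=
  ⟨fun I J hI hJ x hx => phi_lift K I J hI hJ x hx, fun I J hI hJ h => phi_mul K I J hI hJ h,
    fun I hI => phi_pos K I hI⟩

end Pool.Agent.T9h31.NF
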