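import Pool.Agent.T9h11.NF.Spec2

/-!
# `RoughTauK`: divisors of ideals without small prime factors (helper31)
-/

set_option autoImplicit false

namespace Pool.Agent.T9h31.NF

open Finset NumberField Pool.Agent.T9h11.NF UniqueFactorizationMonoid

variable (K : Type) [Field K] [NumberField K]

lemma nd_le (I : Ideal (𝓞 K)) (hI : I ≠ ⊥) :
    nd I ≤ 2 ^ Multiset.card (normalizedFactors I) := by
  classical
  have hinj : Function.Injective (fun J : {J : Ideal (𝓞 K) // J ∣ I} =>
      (⟨normalizedFactors J.1, Multiset.mem_toFinset.2 (Multiset.mem_powerset.2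
        ((dvd_iff_normalizedFactors_le_normalizedFactors
          (ne_zero_of_dvd_ne_zero hI J.2) hI).1 J.2))⟩ :
        {s // s ∈ (Multiset.powerset (normalizedFactors I)).toFinset})) := by
    intro J J' h
    have h1 : normalizedFactors J.1 = normalizedFactors J'.1 :=
      congrArg (fun z : {s // s ∈ (Multiset.powerset (normalizedFactors I)).toFinset} =>
        (z : Multiset (Ideal (𝓞 K)))) h
    have hJ0 : J.1 ≠ 0 := ne_zero_of_dvd_ne_zero hI J.2
    have hJ0' : J'.1 ≠ 0 := ne_zero_of_dvd_ne_zero hI J'.2
    refine Subtype.ext (dvd_antisymm ?_ ?_)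
    · exact (dvd_iff_normalizedFactors_le_normalizedFactors hJ0 hJ0').2 h1.le
    · exact (dvd_iff_normalizedFactors_le_normalizedFactors hJ0' hJ0).2 h1.ge
  have h2 := Nat.card_le_card_of_injective _ hinj
  rw [Nat.card_eq_fintype_card (α := {s // s ∈ (Multiset.powerset (normalizedFactors I)).toFinset}),
    Fintype.card_coe] at h2
  have h3 := Multiset.toFinset_card_le (Multiset.powerset (normalizedFactors I))
  rw [Multiset.card_powerset] at h3
  have h4 : Nat.card {J : Ideal (𝓞 K) // J ∣ I} ≤ 2 ^ Multiset.card (normalizedFactors I) :=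
    h2.trans h3
  unfold nd
  exact_mod_cast h4

lemma pow_le_norm (w : ℕ) (s : Multiset (Ideal (𝓞 K))) (h : ∀ p ∈ s, w ≤ Ideal.absNorm p) :
    w ^ Multiset.card s ≤ Ideal.absNorm s.prod := by
  induction s using Multiset.induction_on with
  | empty => simp
  | cons a s ih =>
    rw [Multiset.card_cons, pow_succ, mul_comm, Multiset.prod_cons, map_mul]
    exact Nat.mul_le_mul (h a (Multiset.mem_cons_self a s))
      (ih fun p hp => h p (Multiset.mem_cons_of_mem hp))

theorem roughTauK : RoughTauK K := by
  intro w I hw hI h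
  refine (nd_le K I hI).trans ?_
  have h1 : w ^ Multiset.card (normalizedFactors I) ≤ Ideal.absNorm I := by
    have h2 := pow_le_norm K w (normalizedFactors I) fun p hp =>
      h p (Ideal.isPrime_of_prime (prime_of_normalized_factor p hp))
        (prime_of_normalized_factor p hp).ne_zero (dvd_of_mem_normalizedFactors hp)
    rwa [(associated_iff_eq.1 (prod_normalizedFactors hI))] at h2
  have h3 : Ideal.absNorm I ≠ 0 := fun h0 => hI (Ideal.absNorm_eq_zero_iff.1 h0)
  have h4 := Nat.le_log_of_pow_le (by omega) h1
  exact pow_le_pow_right₀ (by norm_num) h4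

end Pool.Agent.T9h31.NF
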